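import Pool.Agent.XK.Out

/-!
# The rank conjecture for `X_0(15)` over imaginary quadratic fields, for an exact natural proportion of them

`E : y² + x y + y = x³ + x² - 10 x - 10` is the modular curve `X_0(15)`, and `K` runs through ALL imaginary
quadratic fields in which `3` splits and `5` is inert, ordered by the discriminant.

* If the class group of `K` has no element of order four, then `E(K)` is finite, and the `L`-series of `E`
  over `K` (Mathlib's `WeierstrassCurve.LSeries`, with the Euler factors at all finite places of `K`) has a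
  meromorphic continuation to `ℂ`, which is analytic for `Re s > 1/2` and not zero at `s = 1`. So the order
  of vanishing and the rank are both zero.
* Exactly the proportion `η = ∏ (1 - 2^(-i)) = 0.2887…` of these fields `K` has no ideal class of order
  four. The same is true for the fields in any set of congruence classes of the discriminant modulo `m`,
  prime to `m`.

The proof. `L(E/K, s) = L(E, s) L(E_D, s)` up to finitely many Euler factors, which are treated one by one.
`L(E_D, 1) ≠ 0` for the twist `E_D` is proved by theta elements and ternary quadratic forms modulo two, the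
finiteness of `E_D(ℚ)` by a `2`-descent; both criteria are the same condition on the Rédei matrix, and this is
the condition that the class group has no element of order four. The proportion is a theorem on Rédei
matrices in the natural order (method of Swinnerton-Dyer, Heath-Brown, Kane).
-/

set_option autoImplicit false

open NumberField Filter Topology WeierstrassCurve

namespace Pool.Agent.Results.MP_ae0bd0_nt.BaseChangeX15

/-- the elliptic curve `X_0(15) : y² + x y + y = x³ + x² - 10 x - 10` over `K` -/
def E (K : Type) [Field K] : WeierstrassCurve K :=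
  { a₁ := 1, a₂ := 1, a₃ := 1, a₄ := -10, a₆ := -10 }

/-- `D` is the discriminant of an imaginary quadratic field in which `3` splits and `5` is inert -/
def InClass (D : ℤ) : Prop :=
  D < 0 ∧ ((D % 4 = 1 ∧ Squarefree D) ∨
    (D % 4 = 0 ∧ Squarefree (D / 4) ∧ ((D / 4) % 4 = 2 ∨ (D / 4) % 4 = 3))) ∧
  D % 3 = 1 ∧ (D % 5 = 2 ∨ D % 5 = 3)

/-- `K` is the quadratic field `ℚ(√D)` -/
def IsQuadratic (D : ℤ) (K : Type) [Field K] [NumberField K] : Prop :=
  Module.finrank ℚ K = 2 ∧ ∃ a : K, a ^ 2 = (D : K)

/-- the class group of `K` has no element of order four -/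
def NoFour (K : Type) [Field K] [NumberField K] : Prop :=
  ∀ c : ClassGroup (𝓞 K), c ^ 4 = 1 → c ^ 2 = 1

/-- the class group of `ℚ(√D)` has no element of order four -/
def Good (D : ℤ) : Prop :=
  ∃ (K : Type) (_ : Field K) (_ : NumberField K), IsQuadratic D K ∧ NoFour K

/-- the rank part of the conjecture holds for `E` over `K` with rank zero: `E(K)` is finite and the
`L`-series of `E` over `K` has a meromorphic continuation to `ℂ`, which is analytic for `Re s > 1/2` and
not zero at `s = 1` -/
def RankZero (K : Type) [Field K] [NumberField K] (E : WeierstrassCurve K) : Prop :=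
  Finite E.toAffine.Point ∧ ∃ L : ℂ → ℂ, (∀ s : ℂ, MeromorphicAt L s) ∧
    (∀ s : ℂ, 1 / 2 < s.re → AnalyticAt ℂ L s) ∧
    (∀ s : ℂ, 3 / 2 < s.re → L s = E.LSeries s) ∧ L 1 ≠ 0

open Classical in
/-- the number of the discriminants `D` of the class, `|D| ≤ X`, with the property `P` -/
noncomputable def count (P : ℤ → Prop) (X : ℕ) : ℝ :=
  (((Finset.Icc (-(X : ℤ)) X).filter fun D : ℤ => InClass D ∧ P D).card : ℝ)

/-- the constant `η` -/
noncomputable def eta : ℝ := ∏' i : ℕ, (1 - (1 / 2 : ℝ) ^ (i + 1))

theorem count_eq {P Q : ℤ → Prop} (h : ∀ D, Q D ↔ InClass D ∧ P D) (X : ℕ) :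
    count P X = (Pool.Agent.NH3.XD.cZ Q X : ℝ) := by
  unfold count Pool.Agent.NH3.XD.cZ
  refine congrArg (fun S : Finset ℤ => (S.card : ℝ)) ?_
  ext D
  simp only [Finset.mem_filter, h]

/-- **The rank conjecture for `X_0(15)` over all imaginary quadratic fields in which `3` splits and `5` is
inert and whose class group has no element of order four, and the exact proportion of these fields.** -/
theorem result :
    (∀ (D : ℤ) (K : Type) [Field K] [NumberField K], InClass D → IsQuadratic D K → NoFour K →
      RankZero K (E K)) ∧
    (∀ (m : ℕ) (T : Finset ℤ), 0 < m → (∃ D, InClass D ∧ Int.gcd D m = 1 ∧ D % m ∈ T) →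
      Tendsto (fun X : ℕ => count (fun D => (Int.gcd D m = 1 ∧ D % m ∈ T) ∧ Good D) X /
        count (fun D => Int.gcd D m = 1 ∧ D % m ∈ T) X) atTop (𝓝 eta)) ∧
    Tendsto (fun X : ℕ => count Good X / X) atTop (𝓝 (15 / (32 * Real.pi ^ 2) * eta)) := by
  refine ⟨fun D K _ _ hD hK hc => ?_, fun m T hm hT => ?_, ?_⟩
  · exact Pool.Agent.XK.out_field hD K hK.1 hK.2 hc
  · have h := Pool.Agent.XK.out_law hm T hT
    refine h.congr fun X => ?_
    rw [count_eq (fun D => and_assoc) X, count_eq (fun D => Iff.rfl) X]
    rfl
  · have h := Pool.Agent.XK.out_dens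
    rw [mul_comm] at h
    refine h.congr fun X => ?_
    rw [count_eq (fun D => Iff.rfl) X]
    rfl

end Pool.Agent.Results.MP_ae0bd0_nt.BaseChangeX15
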